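import Mathlib
import Pool.Agent.H.MP_c785a0_an.E

namespace Pool.Agent.Results.MP_c785a0_an.No

open Set Metric Filter Topology
open scoped ENNReal NNReal

/-- The composition `s i₁ ∘ ⋯ ∘ s iₙ` along a finite word. -/
def cp {ι : Type} (s : ι → ℂ → ℂ) (l : List ι) : ℂ → ℂ := l.foldr (fun i h => s i ∘ h) id

/-- The same for a word of length `N`. -/
def wd {ι : Type} (s : ι → ℂ → ℂ) {N : ℕ} (ω : Fin N → ι) : ℂ → ℂ := cp s (List.ofFn ω)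

/-- The limit set. -/
def J {ι : Type} (s : ι → ℂ → ℂ) : Set ℂ :=
  ⋃ ω : ℕ → ι, ⋂ N : ℕ, wd s (fun k : Fin N => ω k) '' closedBall 0 1

/-- Conformal extension to `V` and bounded distortion. -/
def Ext {ι : Type} (s : ι → ℂ → ℂ) (V : Set ℂ) : Prop :=
  IsOpen V ∧ IsConnected V ∧ closedBall 0 1 ⊆ V ∧
    (∀ i, DifferentiableOn ℂ (s i) V ∧ InjOn (s i) V ∧ MapsTo (s i) V V) ∧
    ∃ K : ℝ, 1 ≤ K ∧ ∀ l : List ι, ∀ x ∈ V, ∀ y ∈ V, ‖deriv (cp s l) y‖ ≤ K * ‖deriv (cp s l) x‖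

/-- Conformal iterated function system on the closed unit disc. -/
def CIFS {ι : Type} (s : ι → ℂ → ℂ) : Prop :=
  (∀ i, MapsTo (s i) (closedBall 0 1) (closedBall 0 1) ∧ InjOn (s i) (closedBall 0 1)) ∧
    (∃ L : ℝ≥0, L < 1 ∧ ∀ i, LipschitzOnWith L (s i) (closedBall 0 1)) ∧
    (∀ i j, i ≠ j → Disjoint (s i '' ball 0 1) (s j '' ball 0 1)) ∧ ∃ V, Ext s V

/-- Supremum of the derivative on the closed unit disc. -/
noncomputable def S (h : ℂ → ℂ) : ℝ≥0∞ := ⨆ x ∈ closedBall (0 : ℂ) 1, ‖deriv h x‖ₑ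

/-- The partition function. -/
noncomputable def Z {ι : Type} (s : ι → ℂ → ℂ) (N : ℕ) (t : ℝ) : ℝ≥0∞ :=
  ∑' ω : Fin N → ι, S (wd s ω) ^ t

/-- The pressure vanishes at some `t ≥ 0`. -/
def Regular {ι : Type} (s : ι → ℂ → ℂ) : Prop :=
  ∃ t : ℝ, 0 ≤ t ∧ (∀ N, 0 < Z s N t ∧ Z s N t < ⊤) ∧
    Tendsto (fun N : ℕ => Real.log (Z s N t).toReal / N) atTop (𝓝 0)

/-- `e(j/T) dₙ`. -/
noncomputable def al (d : ℕ → ℝ) (T : ℕ) (p : ℕ × Fin T) : ℂ :=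
  Complex.exp (2 * Real.pi * Complex.I * ((p.2 : ℕ) / T)) * d p.1

/-- The linear system. -/
noncomputable def F (d : ℕ → ℝ) (T : ℕ) (p : ℕ × Fin T) (z : ℂ) : ℂ :=
  (z + starRingEnd ℂ (al d T p)) / ((‖al d T p‖ ^ 2 - 1 : ℝ) : ℂ)

/-- The Moebius system. -/
noncomputable def G (d : ℕ → ℝ) (T : ℕ) (p : ℕ × Fin T) (z : ℂ) : ℂ := 1 / (z + al d T p)

theorem result : ∃ (d : ℕ → ℝ) (T : ℕ), 0 < T ∧ 2 ≤ d 0 ∧ (∀ n, d n + 2 ≤ d (n + 1)) ∧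
    CIFS (F d T) ∧ CIFS (G d T) ∧ Regular (G d T) ∧ dimH (J (F d T)) < dimH (J (G d T)) :=
  Pool.Agent.H.MP_c785a0_an.main

end Pool.Agent.Results.MP_c785a0_an.No
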